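import Mathlib

/-!
# Canonical forms for products of generators
-/

namespace Pool.Agent.Work.MP_72f8f6_ag

/-- The canonical list with `n` entries in `{0,1,2} × {0,1,2}` with sums `p`, `q`. -/
def canl : ℕ → ℕ → ℕ → List (ℕ × ℕ)
  | 0, _, _ => []
  | n + 1, p, q => (min 2 p, min 2 q) :: canl n (p - 2) (q - 2)

theorem length_canl (n p q : ℕ) : (canl n p q).length = n := by
  induction n generalizing p q with
  | zero => rfl
  | succ n ih => simp [canl, ih]

theorem mem_canl {n p q : ℕ} {x : ℕ × ℕ} (hx : x ∈ canl n p q) : x.1 ≤ 2 ∧ x.2 ≤ 2 := by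
  induction n generalizing p q with
  | zero => simp [canl] at hx
  | succ n ih =>
    simp only [canl, List.mem_cons] at hx
    rcases hx with rfl | hx
    · exact ⟨min_le_left _ _, min_le_left _ _⟩
    · exact ih hx

theorem sum_fst_canl {n p q : ℕ} (hp : p ≤ 2 * n) : ((canl n p q).map Prod.fst).sum = p := by
  induction n generalizing p q with
  | zero =>
    have : p = 0 := by omega
    simp [canl, this]
  | succ n ih =>
    simp only [canl, List.map_cons, List.sum_cons]
    rw [ih (by omega)]
    omega

theorem sum_snd_canl {n p q : ℕ} (hq : q ≤ 2 * n) : ((canl n p q).map Prod.snd).sum = q := by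
  induction n generalizing p q with
  | zero =>
    have : q = 0 := by omega
    simp [canl, this]
  | succ n ih =>
    simp only [canl, List.map_cons, List.sum_cons]
    rw [ih (by omega)]
    omega

theorem sum_le_of_entries {α : Type*} (l : List α) (g : α → ℕ) (h : ∀ x ∈ l, g x ≤ 2) :
    (l.map g).sum ≤ 2 * l.length := by
  induction l with
  | nil => simp
  | cons x l ih =>
    simp only [List.map_cons, List.sum_cons, List.length_cons]
    have h1 := h x (by simp)
    have h2 := ih (fun y hy => h y (by simp [hy]))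
    omega

theorem exists_small {α : Type*} (l : List α) (g : α → ℕ) (h : (l.map g).sum < 2 * l.length) :
    ∃ (l1 : List α) (x : α) (l2 : List α), l = l1 ++ x :: l2 ∧ g x ≤ 1 := by
  induction l with
  | nil => simp at h
  | cons x l ih =>
    by_cases hx : g x ≤ 1
    · exact ⟨[], x, l, rfl, hx⟩
    · simp only [List.map_cons, List.sum_cons, List.length_cons] at h
      obtain ⟨l1, y, l2, rfl, hy⟩ := ih (by omega)
      exact ⟨x :: l1, y, l2, rfl, hy⟩

section

variable {S : Type*} [CommRing S] (A B C D : S) (G : ℕ → ℕ → S)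

/-- Product of the generators in a list. -/
def PP (l : List (ℕ × ℕ)) : S := (l.map (fun x => G x.1 x.2)).prod

theorem PP_nil : PP G [] = 1 := rfl

theorem PP_cons (x : ℕ × ℕ) (l : List (ℕ × ℕ)) : PP G (x :: l) = G x.1 x.2 * PP G l := by
  simp [PP]

theorem PP_append (l l' : List (ℕ × ℕ)) : PP G (l ++ l') = PP G l * PP G l' := by
  simp [PP]

/-- The relations used. -/
structure Rels : Prop where
  ab : ∀ i j, i ≤ 1 → B * G i j = A * G (i + 1) j
  cd : ∀ i j, j ≤ 1 → D * G i j = C * G i (j + 1)
  ex : ∀ i i' j j', j ≤ 1 → j' ≤ 1 →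
    A * (G i j * G i' (j' + 1)) = A * (G i (j + 1) * G i' j')

variable {A B C D G}

theorem Rels.ex1 (h : Rels A B C D G) (i i' j j' : ℕ) (hi : i ≤ 1) (hi' : i' ≤ 1) :
    A * (G i j * G (i' + 1) j') = A * (G (i + 1) j * G i' j') := by
  have h1 := h.ab i j hi
  have h2 := h.ab i' j' hi'
  linear_combination G i j * (-h2) + G i' j' * h1

theorem Rels.exi (h : Rels A B C D G) {i i' l l' : ℕ} (j j' : ℕ) (hi : i ≤ 2) (hi' : i' ≤ 2)
    (hl : l ≤ 2) (hl' : l' ≤ 2) (he : i + i' = l + l') :
    A * (G i j * G i' j') = A * (G l j * G l' j') := by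
  have e01 := h.ex1 0 0 j j' (by omega) (by omega)
  have e02 := h.ex1 0 1 j j' (by omega) (by omega)
  have e11 := h.ex1 1 0 j j' (by omega) (by omega)
  have e12 := h.ex1 1 1 j j' (by omega) (by omega)
  simp only [zero_add, Nat.reduceAdd] at e01 e02 e11 e12
  interval_cases i <;> interval_cases i' <;> interval_cases l <;>
    (have hl'' : l' = _ := (Nat.sub_eq_of_eq_add' he).symm
     simp only [Nat.reduceAdd, Nat.reduceSub] at hl'') <;>
    first
      | (exfalso; omega)
      | (subst hl''; rfl)
      | (subst hl''; exact e01)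
      | (subst hl''; exact e01.symm)
      | (subst hl''; exact e02)
      | (subst hl''; exact e02.symm)
      | (subst hl''; exact e11)
      | (subst hl''; exact e11.symm)
      | (subst hl''; exact e12)
      | (subst hl''; exact e12.symm)
      | (subst hl''; exact e02.trans e11)
      | (subst hl''; exact (e02.trans e11).symm)

theorem Rels.exj (h : Rels A B C D G) {j j' l l' : ℕ} (i i' : ℕ) (hj : j ≤ 2) (hj' : j' ≤ 2)
    (hl : l ≤ 2) (hl' : l' ≤ 2) (he : j + j' = l + l') :
    A * (G i j * G i' j') = A * (G i l * G i' l') := by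
  have e01 := h.ex i i' 0 0 (by omega) (by omega)
  have e02 := h.ex i i' 0 1 (by omega) (by omega)
  have e11 := h.ex i i' 1 0 (by omega) (by omega)
  have e12 := h.ex i i' 1 1 (by omega) (by omega)
  simp only [zero_add, Nat.reduceAdd] at e01 e02 e11 e12
  interval_cases j <;> interval_cases j' <;> interval_cases l <;>
    (have hl'' : l' = _ := (Nat.sub_eq_of_eq_add' he).symm
     simp only [Nat.reduceAdd, Nat.reduceSub] at hl'') <;>
    first
      | (exfalso; omega)
      | (subst hl''; rfl)
      | (subst hl''; exact e01)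
      | (subst hl''; exact e01.symm)
      | (subst hl''; exact e02)
      | (subst hl''; exact e02.symm)
      | (subst hl''; exact e11)
      | (subst hl''; exact e11.symm)
      | (subst hl''; exact e12)
      | (subst hl''; exact e12.symm)
      | (subst hl''; exact e02.trans e11)
      | (subst hl''; exact (e02.trans e11).symm)

theorem Rels.canonical (h : Rels A B C D G) (n : ℕ) :
    ∀ l : List (ℕ × ℕ), l.length = n → (∀ x ∈ l, x.1 ≤ 2 ∧ x.2 ≤ 2) →
      A * PP G l = A * PP G (canl n (l.map Prod.fst).sum (l.map Prod.snd).sum) := by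
  induction n with
  | zero =>
    intro l hl _
    rw [List.length_eq_zero_iff] at hl
    subst hl
    rfl
  | succ n ih =>
    intro l hl hmem
    match l, hl, hmem with
    | [], hl, _ => simp at hl
    | x :: l', hl, hmem =>
      have hl' : l'.length = n := by simpa using hl
      have hmem' : ∀ y ∈ l', y.1 ≤ 2 ∧ y.2 ≤ 2 := fun y hy => hmem y (by simp [hy])
      have hx := hmem x (by simp)
      set p' := (l'.map Prod.fst).sum with hp'
      set q' := (l'.map Prod.snd).sum with hq'
      have hp'le : p' ≤ 2 * n := by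
        rw [← hl']; exact sum_le_of_entries l' Prod.fst (fun y hy => (hmem' y hy).1)
      have hq'le : q' ≤ 2 * n := by
        rw [← hl']; exact sum_le_of_entries l' Prod.snd (fun y hy => (hmem' y hy).2)
      rw [PP_cons, List.map_cons, List.sum_cons, List.map_cons, List.sum_cons, ← hp', ← hq']
      have step1 : A * (G x.1 x.2 * PP G l') = A * (G x.1 x.2 * PP G (canl n p' q')) := by
        have := ih l' hl' hmem'
        linear_combination G x.1 x.2 * this
      rw [step1]
      match n, ih, hl', hp'le, hq'le with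
      | 0, _, _, hp'le, hq'le =>
        have hp0 : p' = 0 := by omega
        have hq0 : q' = 0 := by omega
        rw [hp0, hq0]
        simp only [canl, PP_cons, PP_nil, add_zero]
        rw [min_eq_right hx.1, min_eq_right hx.2]
      | (m + 1), ih, _, hp'le, hq'le =>
        -- expand both canonical lists
        have e1 : canl (m + 1 + 1) (x.1 + p') (x.2 + q') =
            (min 2 (x.1 + p'), min 2 (x.2 + q')) :: canl (m + 1) (x.1 + p' - 2) (x.2 + q' - 2) :=
          rfl
        have e2 : canl (m + 1) p' q' = (min 2 p', min 2 q') :: canl m (p' - 2) (q' - 2) := rfl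
        rw [e1, e2, PP_cons, PP_cons]
        simp only
        set i2 := x.1 + min 2 p' - min 2 (x.1 + p') with hi2
        set j2 := x.2 + min 2 q' - min 2 (x.2 + q') with hj2
        have hx1 := hx.1
        have hx2 := hx.2
        have s1 : A * (G x.1 x.2 * G (min 2 p') (min 2 q')) =
            A * (G (min 2 (x.1 + p')) x.2 * G i2 (min 2 q')) :=
          h.exi _ _ (by omega) (by omega) (by omega) (by omega) (by omega)
        have s2 : A * (G (min 2 (x.1 + p')) x.2 * G i2 (min 2 q')) =
            A * (G (min 2 (x.1 + p')) (min 2 (x.2 + q')) * G i2 j2) :=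
          h.exj _ _ (by omega) (by omega) (by omega) (by omega) (by omega)
        have s3 := ih ((i2, j2) :: canl m (p' - 2) (q' - 2)) (by simp [length_canl]) (by
          intro y hy
          rcases List.mem_cons.mp hy with rfl | hy
          · constructor
            · show i2 ≤ 2
              omega
            · show j2 ≤ 2
              omega
          · exact mem_canl hy)
        rw [PP_cons, List.map_cons, List.sum_cons, List.map_cons, List.sum_cons,
          sum_fst_canl (by omega), sum_snd_canl (by omega)] at s3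
        simp only at s3
        have hi3 : i2 + (p' - 2) = x.1 + p' - 2 := by omega
        have hj3 : j2 + (q' - 2) = x.2 + q' - 2 := by omega
        rw [hi3, hj3] at s3
        linear_combination PP G (canl m (p' - 2) (q' - 2)) * (s1 + s2) +
          G (min 2 (x.1 + p')) (min 2 (x.2 + q')) * s3

theorem Rels.stepB (h : Rels A B C D G) {n p q : ℕ} (hp : p < 2 * n) (hq : q ≤ 2 * n) :
    A * (B * PP G (canl n p q)) = A * (A * PP G (canl n (p + 1) q)) := by
  obtain ⟨l1, x, l2, hl, hx⟩ := exists_small (canl n p q) Prod.fst (by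
    rw [sum_fst_canl (by omega), length_canl]; omega)
  have hlen : (l1 ++ (x.1 + 1, x.2) :: l2).length = n := by
    have := length_canl n p q
    rw [hl] at this
    simpa using this
  have hmem : ∀ y ∈ l1 ++ (x.1 + 1, x.2) :: l2, y.1 ≤ 2 ∧ y.2 ≤ 2 := by
    intro y hy
    simp only [List.mem_append, List.mem_cons] at hy
    rcases hy with hy | rfl | hy
    · exact mem_canl (n := n) (p := p) (q := q) (by rw [hl]; simp [hy])
    · have := mem_canl (n := n) (p := p) (q := q) (x := x) (by rw [hl]; simp)
      exact ⟨by simp; omega, this.2⟩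
    · exact mem_canl (n := n) (p := p) (q := q) (by rw [hl]; simp [hy])
  have hs1 : ((l1 ++ (x.1 + 1, x.2) :: l2).map Prod.fst).sum = p + 1 := by
    have := sum_fst_canl (n := n) (p := p) (q := q) (by omega)
    rw [hl] at this
    simp only [List.map_append, List.map_cons, List.sum_append, List.sum_cons] at this ⊢
    omega
  have hs2 : ((l1 ++ (x.1 + 1, x.2) :: l2).map Prod.snd).sum = q := by
    have := sum_snd_canl (n := n) (p := p) (q := q) (by omega)
    rw [hl] at this
    simp only [List.map_append, List.map_cons, List.sum_append, List.sum_cons] at this ⊢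
    omega
  have key := h.canonical n _ hlen hmem
  rw [hs1, hs2, PP_append, PP_cons] at key
  rw [hl, PP_append, PP_cons]
  simp only at key
  have hab := h.ab x.1 x.2 hx
  linear_combination A * PP G l1 * PP G l2 * hab + A * key

theorem Rels.stepD (h : Rels A B C D G) {n p q : ℕ} (hp : p ≤ 2 * n) (hq : q < 2 * n) :
    A * (D * PP G (canl n p q)) = A * (C * PP G (canl n p (q + 1))) := by
  obtain ⟨l1, x, l2, hl, hx⟩ := exists_small (canl n p q) Prod.snd (by
    rw [sum_snd_canl (by omega), length_canl]; omega)
  have hlen : (l1 ++ (x.1, x.2 + 1) :: l2).length = n := by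
    have := length_canl n p q
    rw [hl] at this
    simpa using this
  have hmem : ∀ y ∈ l1 ++ (x.1, x.2 + 1) :: l2, y.1 ≤ 2 ∧ y.2 ≤ 2 := by
    intro y hy
    simp only [List.mem_append, List.mem_cons] at hy
    rcases hy with hy | rfl | hy
    · exact mem_canl (n := n) (p := p) (q := q) (by rw [hl]; simp [hy])
    · have := mem_canl (n := n) (p := p) (q := q) (x := x) (by rw [hl]; simp)
      exact ⟨this.1, by simp; omega⟩
    · exact mem_canl (n := n) (p := p) (q := q) (by rw [hl]; simp [hy])
  have hs1 : ((l1 ++ (x.1, x.2 + 1) :: l2).map Prod.fst).sum = p := by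
    have := sum_fst_canl (n := n) (p := p) (q := q) (by omega)
    rw [hl] at this
    simp only [List.map_append, List.map_cons, List.sum_append, List.sum_cons] at this ⊢
    omega
  have hs2 : ((l1 ++ (x.1, x.2 + 1) :: l2).map Prod.snd).sum = q + 1 := by
    have := sum_snd_canl (n := n) (p := p) (q := q) (by omega)
    rw [hl] at this
    simp only [List.map_append, List.map_cons, List.sum_append, List.sum_cons] at this ⊢
    omega
  have key := h.canonical n _ hlen hmem
  rw [hs1, hs2, PP_append, PP_cons] at key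
  rw [hl, PP_append, PP_cons]
  simp only at key
  have hcd := h.cd x.1 x.2 hx
  linear_combination A * PP G l1 * PP G l2 * hcd + C * key

theorem Rels.stepsB (h : Rels A B C D G) {n q : ℕ} (hq : q ≤ 2 * n) (t : ℕ) :
    ∀ p, p + t ≤ 2 * n → A * (B ^ t * PP G (canl n p q)) =
      A * (A ^ t * PP G (canl n (p + t) q)) := by
  induction t with
  | zero => intro p _; simp
  | succ t ih =>
    intro p hp
    have h1 := h.stepB (n := n) (p := p) (q := q) (by omega) hq
    have h2 := ih (p + 1) (by omega)
    rw [show p + (t + 1) = p + 1 + t by omega]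
    rw [pow_succ, pow_succ]
    linear_combination B ^ t * h1 + A * h2

theorem Rels.stepsD (h : Rels A B C D G) {n p : ℕ} (hp : p ≤ 2 * n) (t : ℕ) :
    ∀ q, q + t ≤ 2 * n → A * (D ^ t * PP G (canl n p q)) =
      A * (C ^ t * PP G (canl n p (q + t))) := by
  induction t with
  | zero => intro p _; simp
  | succ t ih =>
    intro q hq
    have h1 := h.stepD (n := n) (p := p) (q := q) hp (by omega)
    have h2 := ih (q + 1) (by omega)
    rw [show q + (t + 1) = q + 1 + t by omega]
    rw [pow_succ, pow_succ]
    linear_combination D ^ t * h1 + C * h2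

/-- The canonical value attached to the exponent vector `v` in degree `n`. -/
def Psi (A B C D : S) (G : ℕ → ℕ → S) (n v0 v1 v2 v3 : ℕ) : S :=
  A * (A ^ (v0 - (2 * n - min (2 * n) v1)) * B ^ (v1 - min (2 * n) v1) *
    C ^ (v2 - (2 * n - min (2 * n) v3)) * D ^ (v3 - min (2 * n) v3) *
      PP G (canl n (min (2 * n) v1) (min (2 * n) v3)))

theorem Rels.eq_Psi (h : Rels A B C D G) (l : List (ℕ × ℕ)) (n p q : ℕ) (hl : l.length = n)
    (hmem : ∀ x ∈ l, x.1 ≤ 2 ∧ x.2 ≤ 2) (hp : (l.map Prod.fst).sum = p)
    (hq : (l.map Prod.snd).sum = q) (u0 u1 u2 u3 : ℕ) :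
    A * (A ^ u0 * B ^ u1 * C ^ u2 * D ^ u3 * PP G l) =
      Psi A B C D G n (u0 + (2 * n - p)) (u1 + p) (u2 + (2 * n - q)) (u3 + q) := by
  have hple : p ≤ 2 * n := by
    rw [← hl, ← hp]; exact sum_le_of_entries l Prod.fst (fun y hy => (hmem y hy).1)
  have hqle : q ≤ 2 * n := by
    rw [← hl, ← hq]; exact sum_le_of_entries l Prod.snd (fun y hy => (hmem y hy).2)
  have h0 := h.canonical n l hl hmem
  rw [hp, hq] at h0
  -- amounts to shift
  obtain ⟨s, hs⟩ : ∃ s, min (2 * n) (u1 + p) = p + s := ⟨min (2 * n) (u1 + p) - p, by omega⟩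
  obtain ⟨t, ht⟩ : ∃ t, min (2 * n) (u3 + q) = q + t := ⟨min (2 * n) (u3 + q) - q, by omega⟩
  have h1 := h.stepsB (n := n) hqle s p (by omega)
  have h2 := h.stepsD (n := n) (p := p + s) (by omega) t q (by omega)
  rw [Psi, hs, ht]
  rw [show u0 + (2 * n - p) - (2 * n - (p + s)) = u0 + s by omega,
    show u2 + (2 * n - q) - (2 * n - (q + t)) = u2 + t by omega]
  obtain ⟨w1, hw1⟩ : ∃ w, u1 = w + s := ⟨u1 - s, by omega⟩
  obtain ⟨w3, hw3⟩ : ∃ w, u3 = w + t := ⟨u3 - t, by omega⟩
  rw [show u1 + p - (p + s) = w1 by omega, show u3 + q - (q + t) = w3 by omega, hw1, hw3]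
  simp only [pow_add]
  linear_combination A ^ u0 * B ^ w1 * B ^ s * C ^ u2 * D ^ w3 * D ^ t * h0 +
    A ^ u0 * B ^ w1 * C ^ u2 * D ^ w3 * D ^ t * h1 +
    A ^ u0 * A ^ s * B ^ w1 * C ^ u2 * D ^ w3 * h2

end

end Pool.Agent.Work.MP_72f8f6_ag
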