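import Pool.Agent.Work.MP_72f8f6_ag.PolyNot
import Pool.Agent.Work.MP_72f8f6_ag.Canon

/-!
# `a ∈ C((I, a + c))` for `I = (a,b)^2 (c,d)^2`
-/

namespace Pool.Agent.Work.MP_72f8f6_ag

open MvPolynomial

section additive

variable {k : Type*} [Field k] {S : Type*} [CommRing S]

/-- The additive map `∑ c_v x^v ↦ ∑ g(c_v) ψ(v)`. -/
noncomputable def Phi (g : k →+* S) (ψ : (Fin 4 →₀ ℕ) → S) : MvPolynomial (Fin 4) k →+ S :=
  AddMonoidAlgebra.liftNC (g : k →+ S) (fun v => ψ (Multiplicative.toAdd v))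

theorem Phi_monomial (g : k →+* S) (ψ : (Fin 4 →₀ ℕ) → S) (v : Fin 4 →₀ ℕ) (c : k) :
    Phi g ψ (monomial v c) = g c * ψ v := by
  rw [Phi, ← single_eq_monomial, AddMonoidAlgebra.liftNC_single]
  rfl

/-- The additive map on `k[a,b,c,d][t]`. -/
noncomputable def Theta (g : k →+* S) (ψ : ℕ → (Fin 4 →₀ ℕ) → S)
    (p : Polynomial (MvPolynomial (Fin 4) k)) : S := p.sum (fun n r => Phi g (ψ n) r)

theorem Theta_add (g : k →+* S) (ψ : ℕ → (Fin 4 →₀ ℕ) → S)
    (p q : Polynomial (MvPolynomial (Fin 4) k)) :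
    Theta g ψ (p + q) = Theta g ψ p + Theta g ψ q :=
  Polynomial.sum_add_index _ _ _ (fun _ => map_zero _) (fun _ _ _ => map_add _ _ _)

theorem Theta_zero (g : k →+* S) (ψ : ℕ → (Fin 4 →₀ ℕ) → S) : Theta g ψ 0 = 0 := by
  simp [Theta]

theorem Theta_monomial (g : k →+* S) (ψ : ℕ → (Fin 4 →₀ ℕ) → S) (n : ℕ)
    (v : Fin 4 →₀ ℕ) (c : k) :
    Theta g ψ (Polynomial.monomial n (monomial v c)) = g c * ψ n v := by
  rw [Theta, Polynomial.sum_monomial_index _ _ (by exact map_zero (Phi g (ψ n))), Phi_monomial]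

end additive

variable {k : Type*} [Field k]

/-- The generators of `S(I)` in degree one. -/
noncomputable def GI (k : Type*) [Field k] (i j : ℕ) :
    SymmetricAlgebra (MvPolynomial (Fin 4) k) (JI k) :=
  SymmetricAlgebra.ι _ _ ⟨gm k i j, gm_mem i j⟩

/-- The monomials of `S(I)`. -/
def MM (k : Type*) [Field k] : Set (SymmetricAlgebra (MvPolynomial (Fin 4) k) (JI k)) :=
  {z | ∃ (c : k) (u0 u1 u2 u3 : ℕ) (l : List (ℕ × ℕ)), (∀ x ∈ l, x.1 ≤ 2 ∧ x.2 ≤ 2) ∧
    z = algebraMap (MvPolynomial (Fin 4) k) _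
      (C c * X 0 ^ u0 * X 1 ^ u1 * X 2 ^ u2 * X 3 ^ u3) * PP (GI k) l}

theorem MM_mul {x y : SymmetricAlgebra (MvPolynomial (Fin 4) k) (JI k)}
    (hx : x ∈ MM k) (hy : y ∈ MM k) : x * y ∈ MM k := by
  obtain ⟨c, u0, u1, u2, u3, l, hl, rfl⟩ := hx
  obtain ⟨c', u0', u1', u2', u3', l', hl', rfl⟩ := hy
  refine ⟨c * c', u0 + u0', u1 + u1', u2 + u2', u3 + u3', l ++ l', ?_, ?_⟩
  · intro x hx
    rcases List.mem_append.mp hx with h | h
    · exact hl x h
    · exact hl' x h
  · rw [PP_append]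
    simp only [map_mul, pow_add]
    ring

theorem gm_dvd (v : Fin 4 →₀ ℕ) (c : k) (h1 : 2 ≤ v 0 + v 1) (h2 : 2 ≤ v 2 + v 3) :
    (monomial v c : MvPolynomial (Fin 4) k) =
      (C c * X 0 ^ (v 0 - (2 - min 2 (v 1))) * X 1 ^ (v 1 - min 2 (v 1)) *
        X 2 ^ (v 2 - (2 - min 2 (v 3))) * X 3 ^ (v 3 - min 2 (v 3))) *
        gm k (min 2 (v 1)) (min 2 (v 3)) := by
  obtain ⟨s0, hs0⟩ : ∃ s, v 0 = s + (2 - min 2 (v 1)) := ⟨v 0 - (2 - min 2 (v 1)), by omega⟩
  obtain ⟨s1, hs1⟩ : ∃ s, v 1 = s + min 2 (v 1) := ⟨v 1 - min 2 (v 1), by omega⟩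
  obtain ⟨s2, hs2⟩ : ∃ s, v 2 = s + (2 - min 2 (v 3)) := ⟨v 2 - (2 - min 2 (v 3)), by omega⟩
  obtain ⟨s3, hs3⟩ : ∃ s, v 3 = s + min 2 (v 3) := ⟨v 3 - min 2 (v 3), by omega⟩
  have e0 : v 0 - (2 - min 2 (v 1)) = s0 := by omega
  have e1 : v 1 - min 2 (v 1) = s1 := by omega
  have e2 : v 2 - (2 - min 2 (v 3)) = s2 := by omega
  have e3 : v 3 - min 2 (v 3) = s3 := by omega
  rw [e0, e1, e2, e3, monomial_eq_prod, gm]
  generalize min 2 (v 1) = m1 at *
  generalize min 2 (v 3) = m3 at *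
  rw [hs0, hs1, hs2, hs3]
  simp only [pow_add]
  ring

theorem mem_closure_MM (z : SymmetricAlgebra (MvPolynomial (Fin 4) k) (JI k)) :
    z ∈ AddSubmonoid.closure (MM k) := by
  induction z using SymmetricAlgebra.induction with
  | algebraMap r =>
    induction r using MvPolynomial.induction_on' with
    | monomial v c =>
      apply AddSubmonoid.subset_closure
      refine ⟨c, v 0, v 1, v 2, v 3, [], by simp, ?_⟩
      rw [PP_nil, mul_one, monomial_eq_prod]
      congr 1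
      ring
    | add p q hp hq =>
      rw [map_add]
      exact AddSubmonoid.add_mem _ hp hq
  | ι x =>
    obtain ⟨x, hx⟩ := x
    have hx' : x ∈ JJ k 2 2 := by
      have := JI_pow (k := k) 1
      rw [pow_one] at this
      rw [this] at hx
      exact hx
    have hmono : ∀ v ∈ x.support, (monomial v (coeff v x)) ∈ JI k := by
      intro v hv
      have h := hx' v hv
      rw [gm_dvd v _ h.1 h.2]
      exact Ideal.mul_mem_left _ _ (gm_mem _ _)
    have hsum : (⟨x, hx⟩ : JI k) = ∑ v ∈ x.support.attach,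
        (⟨monomial v.1 (coeff v.1 x), hmono v.1 v.2⟩ : JI k) := by
      apply Subtype.ext
      rw [AddSubmonoidClass.coe_finsetSum]
      refine Eq.trans ?_ (Finset.sum_attach x.support (fun v => monomial v (coeff v x))).symm
      exact x.as_sum
    rw [hsum, map_sum]
    refine AddSubmonoid.sum_mem _ (fun v _ => ?_)
    apply AddSubmonoid.subset_closure
    have h := hx' v.1 v.2
    refine ⟨coeff v.1 x, v.1 0 - (2 - min 2 (v.1 1)), v.1 1 - min 2 (v.1 1),
      v.1 2 - (2 - min 2 (v.1 3)), v.1 3 - min 2 (v.1 3),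
      [(min 2 (v.1 1), min 2 (v.1 3))], ?_, ?_⟩
    · intro y hy
      rw [List.mem_singleton] at hy
      subst hy
      exact ⟨min_le_left _ _, min_le_left _ _⟩
    · rw [PP_cons, PP_nil, mul_one, GI, ← Algebra.smul_def, ← map_smul]
      congr 1
      apply Subtype.ext
      rw [SetLike.val_smul, smul_eq_mul]
      exact gm_dvd v.1 _ h.1 h.2
  | mul x y hx hy =>
    induction hx using AddSubmonoid.closure_induction with
    | mem a ha =>
      induction hy using AddSubmonoid.closure_induction with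
      | mem b hb => exact AddSubmonoid.subset_closure (MM_mul ha hb)
      | zero => rw [mul_zero]; exact AddSubmonoid.zero_mem _
      | add b b' _ _ h1 h2 => rw [mul_add]; exact AddSubmonoid.add_mem _ h1 h2
    | zero => rw [zero_mul]; exact AddSubmonoid.zero_mem _
    | add a a' _ _ h1 h2 => rw [add_mul]; exact AddSubmonoid.add_mem _ h1 h2
  | add x y hx hy => exact AddSubmonoid.add_mem _ hx hy

theorem symToRees_PP (l : List (ℕ × ℕ)) :
    (symToRees (JI k) (PP (GI k) l) : Polynomial (MvPolynomial (Fin 4) k)) =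
      Polynomial.monomial l.length (PP (gm k) l) := by
  induction l with
  | nil =>
    rw [PP_nil, map_one]
    rfl
  | cons x l ih =>
    rw [PP_cons, map_mul, PP_cons, List.length_cons]
    change (symToRees (JI k) (GI k x.1 x.2) : Polynomial (MvPolynomial (Fin 4) k)) *
      (symToRees (JI k) (PP (GI k) l) : Polynomial (MvPolynomial (Fin 4) k)) = _
    rw [ih, GI, symToRees_ι, Polynomial.monomial_mul_monomial, add_comm 1]

theorem PP_gm (l : List (ℕ × ℕ)) (h : ∀ x ∈ l, x.1 ≤ 2 ∧ x.2 ≤ 2) :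
    PP (gm k) l = (X 0 ^ (2 * l.length - (l.map Prod.fst).sum) * X 1 ^ (l.map Prod.fst).sum) *
      (X 2 ^ (2 * l.length - (l.map Prod.snd).sum) * X 3 ^ (l.map Prod.snd).sum) := by
  induction l with
  | nil => simp [PP_nil]
  | cons x l ih =>
    have hx := h x (by simp)
    have hl : ∀ y ∈ l, y.1 ≤ 2 ∧ y.2 ≤ 2 := fun y hy => h y (by simp [hy])
    have h1 := sum_le_of_entries l Prod.fst (fun y hy => (hl y hy).1)
    have h2 := sum_le_of_entries l Prod.snd (fun y hy => (hl y hy).2)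
    rw [PP_cons, ih hl, gm]
    simp only [List.map_cons, List.sum_cons, List.length_cons]
    have e1 : 2 * (l.length + 1) - (x.1 + (l.map Prod.fst).sum) =
      (2 - x.1) + (2 * l.length - (l.map Prod.fst).sum) := by omega
    have e2 : 2 * (l.length + 1) - (x.2 + (l.map Prod.snd).sum) =
      (2 - x.2) + (2 * l.length - (l.map Prod.snd).sum) := by omega
    rw [e1, e2]
    simp only [pow_add]
    ring

/-- The ideal `(I, f)`. -/
noncomputable abbrev KK (k : Type*) [Field k] : Ideal (MvPolynomial (Fin 4) k) :=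
  JI k ⊔ Ideal.span {fac k}

/-- The structure map `R → S((I,f))`. -/
noncomputable abbrev aK (k : Type*) [Field k] : MvPolynomial (Fin 4) k →+*
    SymmetricAlgebra (MvPolynomial (Fin 4) k) (KK k) :=
  algebraMap (MvPolynomial (Fin 4) k) (SymmetricAlgebra (MvPolynomial (Fin 4) k) (KK k))

/-- The generators in `S((I,f))`. -/
noncomputable def GK (k : Type*) [Field k] (i j : ℕ) :
    SymmetricAlgebra (MvPolynomial (Fin 4) k) (KK k) :=
  SymmetricAlgebra.ι _ _ (aElt (JI k) (fac k) (gm k i j) (gm_mem i j))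

theorem inclSym_GI (i j : ℕ) : inclSym (JI k) (fac k) (GI k i j) = GK k i j :=
  inclSym_ι _ _ _

theorem inclSym_PP (l : List (ℕ × ℕ)) :
    inclSym (JI k) (fac k) (PP (GI k) l) = PP (GK k) l := by
  induction l with
  | nil => rw [PP_nil, PP_nil, map_one]
  | cons x l ih => rw [PP_cons, PP_cons, map_mul, inclSym_GI, ih]

theorem gm_ab (i j : ℕ) (hi : i ≤ 1) : X 1 * gm k i j = X 0 * gm k (i + 1) j := by
  have : 2 - i = (2 - (i + 1)) + 1 := by omega
  rw [gm, gm, this]
  ring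

theorem gm_cd (i j : ℕ) (hj : j ≤ 1) : X 3 * gm k i j = X 2 * gm k i (j + 1) := by
  have : 2 - j = (2 - (j + 1)) + 1 := by omega
  rw [gm, gm, this]
  ring

theorem gm_ex (i i' j j' : ℕ) (hj : j ≤ 1) (hj' : j' ≤ 1) :
    gm k i j * gm k i' (j' + 1) = gm k i (j + 1) * gm k i' j' := by
  have e1 : 2 - j = (2 - (j + 1)) + 1 := by omega
  have e2 : 2 - j' = (2 - (j' + 1)) + 1 := by omega
  rw [gm, gm, gm, gm, e1, e2]
  ring

theorem aElt_smul_eq (x y : MvPolynomial (Fin 4) k) {p q : MvPolynomial (Fin 4) k}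
    (hp : p ∈ JI k) (hq : q ∈ JI k) (h : x * p = y * q) :
    aK k x *
      SymmetricAlgebra.ι _ _ (aElt (JI k) (fac k) p hp) =
    aK k y *
      SymmetricAlgebra.ι _ _ (aElt (JI k) (fac k) q hq) := by
  rw [← Algebra.smul_def, ← Algebra.smul_def, ← map_smul, ← map_smul]
  congr 1
  apply Subtype.ext
  simpa [aElt] using h

theorem fac_smul_eq {p : MvPolynomial (Fin 4) k} (hp : p ∈ JI k) :
    aK k (fac k) * SymmetricAlgebra.ι _ _ (aElt (JI k) (fac k) p hp) =
    aK k p * SymmetricAlgebra.ι _ _ (fElt (JI k) (fac k)) := by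
  rw [← Algebra.smul_def, ← Algebra.smul_def, ← map_smul, ← map_smul]
  congr 1
  apply Subtype.ext
  simp [aElt, fElt, mul_comm]

theorem rels (k : Type*) [Field k] : Rels (aK k (X 0)) (aK k (X 1)) (aK k (X 2)) (aK k (X 3))
    (GK k) where
  ab i j hi := aElt_smul_eq _ _ _ _ (gm_ab i j hi)
  cd i j hj := aElt_smul_eq _ _ _ _ (gm_cd i j hj)
  ex i i' j j' hj hj' := by
    have c1 : aK k (X 3) * GK k i j = aK k (X 2) * GK k i (j + 1) :=
      aElt_smul_eq _ _ _ _ (gm_cd i j hj)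
    have c2 : aK k (X 3) * GK k i' j' = aK k (X 2) * GK k i' (j' + 1) :=
      aElt_smul_eq _ _ _ _ (gm_cd i' j' hj')
    have f1 : aK k (fac k) * GK k i j = aK k (gm k i j) *
      SymmetricAlgebra.ι _ _ (fElt (JI k) (fac k)) := fac_smul_eq (gm_mem i j)
    have f2 : aK k (fac k) * GK k i (j + 1) = aK k (gm k i (j + 1)) *
      SymmetricAlgebra.ι _ _ (fElt (JI k) (fac k)) := fac_smul_eq (gm_mem i (j + 1))
    have f3 : aK k (gm k i j) * GK k i' (j' + 1) = aK k (gm k i (j + 1)) * GK k i' j' :=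
      aElt_smul_eq _ _ _ _ (gm_ex i i' j j' hj hj')
    have hfac : aK k (fac k) = aK k (X 0) + aK k (X 2) := by rw [fac, map_add]
    rw [hfac] at f1 f2
    linear_combination GK k i' (j' + 1) * f1 - GK k i' j' * f2 + GK k i j * c2 -
      GK k i' j' * c1 +
      SymmetricAlgebra.ι (MvPolynomial (Fin 4) k) _ (fElt (JI k) (fac k)) * f3

/-- The canonical values in `S((I,f))`. -/
noncomputable def psi (k : Type*) [Field k] (n : ℕ) (v : Fin 4 →₀ ℕ) :
    SymmetricAlgebra (MvPolynomial (Fin 4) k) (KK k) :=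
  Psi (aK k (X 0)) (aK k (X 1)) (aK k (X 2)) (aK k (X 3)) (GK k) n (v 0) (v 1) (v 2) (v 3)

theorem inclSym_algebraMap (r : MvPolynomial (Fin 4) k) :
    inclSym (JI k) (fac k) (algebraMap _ _ r) = aK k r := AlgHom.commutes _ _

theorem symToRees_mon (c : k) (u0 u1 u2 u3 : ℕ) (l : List (ℕ × ℕ))
    (hl : ∀ x ∈ l, x.1 ≤ 2 ∧ x.2 ≤ 2) :
    (symToRees (JI k) (algebraMap (MvPolynomial (Fin 4) k) _
      (C c * X 0 ^ u0 * X 1 ^ u1 * X 2 ^ u2 * X 3 ^ u3) * PP (GI k) l) :
        Polynomial (MvPolynomial (Fin 4) k)) =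
    Polynomial.monomial l.length (monomial (Finsupp.equivFunOnFinite.symm
      ![u0 + (2 * l.length - (l.map Prod.fst).sum), u1 + (l.map Prod.fst).sum,
        u2 + (2 * l.length - (l.map Prod.snd).sum), u3 + (l.map Prod.snd).sum]) c) := by
  rw [map_mul, AlgHom.commutes]
  change (algebraMap (MvPolynomial (Fin 4) k) (Polynomial (MvPolynomial (Fin 4) k)) _) *
    (symToRees (JI k) (PP (GI k) l) : Polynomial (MvPolynomial (Fin 4) k)) = _
  rw [symToRees_PP, Polynomial.algebraMap_apply, Algebra.algebraMap_self, RingHom.id_apply,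
    Polynomial.C_mul_monomial, PP_gm l hl]
  congr 1
  rw [monomial_eq_prod]
  simp only [Finsupp.equivFunOnFinite_symm_apply_apply, Matrix.cons_val_zero,
    Matrix.cons_val_one, Matrix.cons_val]
  simp only [pow_add]
  ring

theorem main_eq (z : SymmetricAlgebra (MvPolynomial (Fin 4) k) (JI k)) :
    aK k (X 0) * inclSym (JI k) (fac k) z =
      Theta ((aK k).comp C) (psi k)
        (symToRees (JI k) z : Polynomial (MvPolynomial (Fin 4) k)) := by
  have hz := mem_closure_MM z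
  induction hz using AddSubmonoid.closure_induction with
  | zero =>
    rw [map_zero, map_zero, mul_zero]
    exact (Theta_zero _ _).symm
  | add x y _ _ hx hy =>
    rw [map_add, map_add, mul_add, hx, hy]
    exact (Theta_add _ _ _ _).symm
  | mem x hx =>
    obtain ⟨c, u0, u1, u2, u3, l, hl, rfl⟩ := hx
    have h1 := (rels k).eq_Psi l l.length _ _ rfl hl rfl rfl u0 u1 u2 u3
    rw [symToRees_mon c u0 u1 u2 u3 l hl, Theta_monomial, map_mul, inclSym_algebraMap,
      inclSym_PP, psi]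
    simp only [Finsupp.equivFunOnFinite_symm_apply_apply, Matrix.cons_val_zero,
      Matrix.cons_val_one, Matrix.cons_val]
    rw [← h1]
    simp only [map_mul, map_pow, RingHom.comp_apply]
    ring

theorem X0_mem : (X 0 : MvPolynomial (Fin 4) k) ∈ conductor (JI k ⊔ Ideal.span {fac k}) := by
  rw [mem_conductor]
  intro z hz
  have h1 := ker_le_kerExt fac_reg z hz
  rw [Algebra.smul_def]
  change aK k (X 0) * z = 0
  rw [kerExt, Ideal.map] at h1
  refine Submodule.span_induction ?_ ?_ ?_ ?_ h1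
  · rintro _ ⟨s, hs, rfl⟩
    have h2 := main_eq s
    have h3 : symToRees (JI k) s = 0 := hs
    rw [h3] at h2
    exact h2.trans (Theta_zero _ _)
  · rw [mul_zero]
  · intro x y _ _ hx hy
    rw [mul_add, hx, hy, add_zero]
  · intro c x _ hx
    rw [smul_eq_mul, mul_left_comm, hx, mul_zero]

end Pool.Agent.Work.MP_72f8f6_ag
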