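import Pool.Agent.Work.MP_72f8f6_ag.Defs

/-!
# Conductor of an ideal: definitions and the structure of the kernel `S(K) → R(K)` for
`K = (I, f)` with `f` regular modulo all powers of `I`.
-/

open Polynomial

namespace Pool.Agent.Work.MP_72f8f6_ag

universe u

variable {R : Type u} [CommRing R]

theorem mem_conductor {I : Ideal R} {r : R} :
    r ∈ conductor I ↔ ∀ z : SymmetricAlgebra R I, symToRees I z = 0 → r • z = 0 := by
  rw [conductor, Module.mem_annihilator]
  constructor
  · intro h z hz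
    have := h ⟨z, hz⟩
    exact congrArg Subtype.val this
  · intro h z
    exact Subtype.ext (h z.1 z.2)

theorem symToRees_ι (I : Ideal R) (a : I) :
    (symToRees I (SymmetricAlgebra.ι R I a) : R[X]) = monomial 1 (a : R) := by
  simp only [symToRees, SymmetricAlgebra.lift_ι_apply]
  rfl

theorem symToRees_surjective (I : Ideal R) : Function.Surjective (symToRees I) := by
  have h : reesAlgebra I ≤ ((reesAlgebra I).val.comp (symToRees I)).range := by
    refine (adjoin_monomial_eq_reesAlgebra I).symm.le.trans ?_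
    refine Algebra.adjoin_le ?_
    rintro _ ⟨a, ha, rfl⟩
    exact ⟨SymmetricAlgebra.ι R I ⟨a, ha⟩, by simp [symToRees_ι]⟩
  rintro ⟨p, hp⟩
  obtain ⟨z, hz⟩ := h hp
  exact ⟨z, Subtype.ext hz⟩

section kernel

variable (I : Ideal R) (f : R)

/-- The natural map `S(I) → S((I,f))`. -/
noncomputable def inclSym :
    SymmetricAlgebra R I →ₐ[R] SymmetricAlgebra R (I ⊔ Ideal.span {f} : Ideal R) :=
  SymmetricAlgebra.lift ((SymmetricAlgebra.ι R _).comp
    (Submodule.inclusion (le_sup_left : I ≤ I ⊔ Ideal.span {f})))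

/-- The ideal of `S((I,f))` generated by the kernel of `S(I) → R(I)`. -/
noncomputable def kerExt : Ideal (SymmetricAlgebra R (I ⊔ Ideal.span {f} : Ideal R)) :=
  Ideal.map (inclSym I f) (RingHom.ker (symToRees I))

/-- The element `f` of `(I,f)`. -/
def fElt : (I ⊔ Ideal.span {f} : Ideal R) :=
  ⟨f, (le_sup_right : Ideal.span {f} ≤ I ⊔ Ideal.span {f}) (Ideal.mem_span_singleton_self f)⟩

/-- An element of `I` regarded as an element of `(I,f)`. -/
def aElt (a : R) (ha : a ∈ I) : (I ⊔ Ideal.span {f} : Ideal R) :=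
  ⟨a, (le_sup_left : I ≤ I ⊔ Ideal.span {f}) ha⟩

theorem inclSym_ι (a : I) : inclSym I f (SymmetricAlgebra.ι R I a) =
    SymmetricAlgebra.ι R _ (aElt I f a a.2) := by
  simp only [inclSym, SymmetricAlgebra.lift_ι_apply]
  rfl

theorem symToRees_inclSym (s : SymmetricAlgebra R I) :
    (symToRees _ (inclSym I f s) : R[X]) = (symToRees I s : R[X]) := by
  have : ((reesAlgebra _).val.comp ((symToRees _).comp (inclSym I f))) =
      (reesAlgebra I).val.comp (symToRees I) := by
    apply SymmetricAlgebra.algHom_ext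
    ext a : 1
    simp [inclSym_ι, symToRees_ι, aElt]
  exact DFunLike.congr_fun this s

/-- The quotient `S((I,f)) / ker(S(I) → R(I)) S((I,f))`. -/
abbrev GG := SymmetricAlgebra R (I ⊔ Ideal.span {f} : Ideal R) ⧸ kerExt I f

noncomputable def gam : reesAlgebra I →ₐ[R] GG I f :=
  (Ideal.Quotient.liftₐ (RingHom.ker (symToRees I))
    ((Ideal.Quotient.mkₐ R (kerExt I f)).comp (inclSym I f)) (by
      intro a ha
      have : inclSym I f a ∈ kerExt I f := Ideal.mem_map_of_mem _ ha
      simpa using (Ideal.Quotient.eq_zero_iff_mem.mpr this))).comp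
    (Ideal.quotientKerAlgEquivOfSurjective (symToRees_surjective I)).symm.toAlgHom

theorem gam_symToRees (s : SymmetricAlgebra R I) :
    gam I f (symToRees I s) = Ideal.Quotient.mk (kerExt I f) (inclSym I f s) := by
  have h : (Ideal.quotientKerAlgEquivOfSurjective (symToRees_surjective I)).symm
      (symToRees I s) = Ideal.Quotient.mk _ s := by
    rw [AlgEquiv.symm_apply_eq]
    rfl
  simp only [gam, AlgHom.comp_apply]
  erw [h]
  rfl

/-- `y`, the class of `f` in degree one. -/
noncomputable def yy : GG I f := Ideal.Quotient.mk _ (SymmetricAlgebra.ι R _ (fElt I f))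

open Classical in
/-- The class of `x t^n` in `GG`, for `x ∈ I^n` (and `0` otherwise). -/
noncomputable def Gm (n : ℕ) (x : R) : GG I f :=
  if h : x ∈ I ^ n then gam I f ⟨monomial n x, reesAlgebra.monomial_mem.mpr h⟩ else 0

variable {I f}

theorem Gm_of_mem {n : ℕ} {x : R} (h : x ∈ I ^ n) :
    Gm I f n x = gam I f ⟨monomial n x, reesAlgebra.monomial_mem.mpr h⟩ := dif_pos h

theorem Gm_add {n : ℕ} {x x' : R} (h : x ∈ I ^ n) (h' : x' ∈ I ^ n) :
    Gm I f n (x + x') = Gm I f n x + Gm I f n x' := by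
  rw [Gm_of_mem h, Gm_of_mem h', Gm_of_mem (Ideal.add_mem _ h h'), ← map_add]
  congr 1
  ext1
  simp

theorem Gm_smul {n : ℕ} {x : R} (r : R) (h : x ∈ I ^ n) :
    Gm I f n (r * x) = r • Gm I f n x := by
  rw [Gm_of_mem h, Gm_of_mem (Ideal.mul_mem_left _ r h), ← map_smul]
  congr 1
  ext1
  simp [smul_monomial]

theorem Gm_zero (n : ℕ) : Gm I f n 0 = 0 := by
  rw [Gm_of_mem (Ideal.zero_mem _)]
  have : (⟨monomial n (0 : R), reesAlgebra.monomial_mem.mpr (Ideal.zero_mem _)⟩ :
    reesAlgebra I) = 0 := by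
    ext1; simp
  rw [this, map_zero]

theorem Gm_neg {n : ℕ} {x : R} (h : x ∈ I ^ n) : Gm I f n (-x) = -Gm I f n x := by
  rw [neg_eq_neg_one_mul, Gm_smul _ h, neg_one_smul]

theorem Gm_mul {m n : ℕ} {x x' : R} (h : x ∈ I ^ m) (h' : x' ∈ I ^ n) :
    Gm I f (m + n) (x * x') = Gm I f m x * Gm I f n x' := by
  have hh : x * x' ∈ I ^ (m + n) := by
    rw [pow_add]; exact Ideal.mul_mem_mul h h'
  rw [Gm_of_mem h, Gm_of_mem h', Gm_of_mem hh, ← map_mul]
  congr 1
  ext1
  simp [monomial_mul_monomial]

theorem Gm_one {a : R} (h : a ∈ I) :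
    Gm I f 1 a = Ideal.Quotient.mk _ (SymmetricAlgebra.ι R _ (aElt I f a h)) := by
  rw [Gm_of_mem (by simpa using h)]
  have : (⟨monomial 1 a, reesAlgebra.monomial_mem.mpr (by simpa using h)⟩ : reesAlgebra I) =
      symToRees I (SymmetricAlgebra.ι R I ⟨a, h⟩) := by
    ext1
    rw [symToRees_ι]
  rw [this, gam_symToRees, inclSym_ι]

theorem f_smul_Gm_one {a : R} (h : a ∈ I) : f • Gm I f 1 a = a • yy I f := by
  rw [Gm_one h, yy]
  have h1 : f • (aElt I f a h) = a • (fElt I f) := by
    apply Subtype.ext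
    simp [aElt, fElt, mul_comm]
  have h2 := congrArg (SymmetricAlgebra.ι R (I ⊔ Ideal.span {f} : Ideal R)) h1
  rw [map_smul, map_smul] at h2
  have h3 := congrArg (Ideal.Quotient.mkₐ R (kerExt I f)) h2
  rw [map_smul, map_smul] at h3
  exact h3

theorem f_smul_Gm {n : ℕ} {x : R} (h : x ∈ I ^ (n + 1)) :
    f • Gm I f (n + 1) x = yy I f * Gm I f n x := by
  rw [pow_succ'] at h
  have key : ∀ x ∈ I * I ^ n, x ∈ I ^ (n + 1) ∧ x ∈ I ^ n ∧
      f • Gm I f (n + 1) x = yy I f * Gm I f n x := by
    intro x hx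
    refine Submodule.mul_induction_on hx ?_ ?_
    · intro a ha x' hx'
      have h1 : a * x' ∈ I ^ (n + 1) := by
        rw [pow_succ']; exact Ideal.mul_mem_mul ha hx'
      refine ⟨h1, Ideal.mul_mem_left _ _ hx', ?_⟩
      have ha1 : a ∈ I ^ 1 := by simpa using ha
      rw [add_comm n 1, Gm_mul ha1 hx', ← smul_mul_assoc, f_smul_Gm_one ha, Gm_smul _ hx']
      rw [smul_mul_assoc, mul_smul_comm]
    · rintro x1 x2 ⟨a1, b1, c1⟩ ⟨a2, b2, c2⟩
      refine ⟨Ideal.add_mem _ a1 a2, Ideal.add_mem _ b1 b2, ?_⟩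
      rw [Gm_add a1 a2, Gm_add b1 b2, smul_add, c1, c2, mul_add]
  exact (key x h).2.2

/-- Main induction. -/
theorem main_induction (hf : ∀ (j : ℕ) (r : R), r * f ∈ I ^ j → r ∈ I ^ j) (n : ℕ) :
    ∀ c : ℕ → R, (∀ i ≤ n, c i ∈ I ^ (n - i)) →
      ∑ i ∈ Finset.range (n + 1), c i * f ^ i = 0 →
      ∑ i ∈ Finset.range (n + 1), Gm I f (n - i) (c i) * yy I f ^ i = 0 := by
  induction n with
  | zero =>
    intro c _ h
    simp only [zero_add, Finset.range_one, Finset.sum_singleton, pow_zero, mul_one] at h ⊢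
    rw [h, Gm_zero]
  | succ n ih =>
    intro c hc h
    set b : R := ∑ i ∈ Finset.range (n + 1), c (i + 1) * f ^ i with hb
    have h0 : c 0 + b * f = 0 := by
      rw [Finset.sum_range_succ'] at h
      rw [hb, Finset.sum_mul, add_comm]
      convert h using 2
      · apply Finset.sum_congr rfl
        intro i _
        ring
      · simp
    have hbf : b * f ∈ I ^ (n + 1) := by
      have : b * f = -(c 0) := by linear_combination h0
      rw [this]
      exact (Ideal.neg_mem_iff _).mpr (hc 0 (Nat.zero_le _))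
    have hbm : b ∈ I ^ (n + 1) := hf _ _ hbf
    have hbm' : b ∈ I ^ n := Ideal.pow_le_pow_right (Nat.le_succ n) hbm
    have hc0 : Gm I f (n + 1) (c 0) = - (yy I f * Gm I f n b) := by
      have : c 0 = -(f * b) := by linear_combination h0
      rw [this, Gm_neg (Ideal.mul_mem_left _ _ hbm), Gm_smul _ hbm, f_smul_Gm hbm]
    -- the new sequence
    set c' : ℕ → R := fun i => if i = 0 then c 1 - b else c (i + 1) with hc'
    have hc'mem : ∀ i ≤ n, c' i ∈ I ^ (n - i) := by
      intro i hi
      simp only [hc']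
      split_ifs with h0i
      · subst h0i
        exact Ideal.sub_mem _ (by simpa using hc 1 (by omega)) (by simpa using hbm')
      · have := hc (i + 1) (by omega)
        simpa using this
    have hsum' : ∑ i ∈ Finset.range (n + 1), c' i * f ^ i = 0 := by
      rw [Finset.sum_range_succ']
      have hb2 : b = ∑ i ∈ Finset.range n, c (i + 1 + 1) * f ^ (i + 1) + c 1 := by
        rw [hb, Finset.sum_range_succ']
        simp
      simp only [hc', Nat.succ_ne_zero, if_false, if_true, pow_zero, mul_one]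
      rw [hb2]
      simp
    have ih' := ih c' hc'mem hsum'
    rw [Finset.sum_range_succ'] at ih' ⊢
    simp only [hc', Nat.succ_ne_zero, if_false, if_true, pow_zero, mul_one] at ih'
    simp only [pow_zero, mul_one, Nat.sub_zero, hc0]
    rw [Finset.sum_range_succ']
    have e1 : Gm I f (n - 0) (c 1 - b) = Gm I f n (c 1) - Gm I f n b := by
      have hc1 : c 1 ∈ I ^ n := by simpa using hc 1 (by omega)
      rw [Nat.sub_zero, sub_eq_add_neg, Gm_add hc1 ((Ideal.neg_mem_iff _).mpr hbm'),
        Gm_neg hbm', sub_eq_add_neg]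
    rw [e1] at ih'
    have e2 : ∀ i ∈ Finset.range n, Gm I f (n + 1 - (i + 1 + 1)) (c (i + 1 + 1)) *
        yy I f ^ (i + 1 + 1) = yy I f * (Gm I f (n - (i + 1)) (c (i + 1 + 1)) *
        yy I f ^ (i + 1)) := by
      intro i _
      have : n + 1 - (i + 1 + 1) = n - (i + 1) := by omega
      rw [this]
      ring
    rw [Finset.sum_congr rfl e2, ← Finset.mul_sum]
    simp only [zero_add, pow_one, Nat.add_sub_cancel]
    linear_combination (yy I f) * ih'

/-- The map `GG → R[t]` induced by `S((I,f)) → R((I,f))`. -/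
noncomputable def theta (I : Ideal R) (f : R) : GG I f →ₐ[R] R[X] :=
  Ideal.Quotient.liftₐ (kerExt I f) ((reesAlgebra _).val.comp (symToRees _)) (by
    intro z hz
    have hle : kerExt I f ≤ RingHom.ker ((reesAlgebra _).val.comp
        (symToRees (I ⊔ Ideal.span {f} : Ideal R))) := by
      rw [kerExt, Ideal.map_le_iff_le_comap]
      intro s hs
      rw [Ideal.mem_comap, RingHom.mem_ker]
      have h1 := symToRees_inclSym I f s
      rw [RingHom.mem_ker] at hs
      rw [hs] at h1
      simpa using h1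
    exact hle hz)

theorem theta_mk (z : SymmetricAlgebra R (I ⊔ Ideal.span {f} : Ideal R)) :
    theta I f (Ideal.Quotient.mk _ z) = (symToRees _ z : R[X]) := rfl

theorem theta_gam (p : reesAlgebra I) : theta I f (gam I f p) = (p : R[X]) := by
  obtain ⟨s, rfl⟩ := symToRees_surjective I p
  rw [gam_symToRees, theta_mk, symToRees_inclSym]

theorem theta_yy : theta I f (yy I f) = monomial 1 f := by
  rw [yy, theta_mk, symToRees_ι]
  rfl

theorem gg_eq_eval (g : GG I f) :
    ∃ P : (reesAlgebra I)[X], g = P.eval₂ (gam I f).toRingHom (yy I f) := by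
  obtain ⟨z, rfl⟩ := Ideal.Quotient.mk_surjective g
  induction z using SymmetricAlgebra.induction with
  | algebraMap r =>
    refine ⟨C (algebraMap R _ r), ?_⟩
    rw [eval₂_C]
    change _ = gam I f (algebraMap R _ r)
    rw [AlgHom.commutes]
    rfl
  | ι x =>
    obtain ⟨x, hx⟩ := x
    obtain ⟨a, ha, b, hb, rfl⟩ := Submodule.mem_sup.mp hx
    obtain ⟨r, rfl⟩ := Ideal.mem_span_singleton'.mp hb
    refine ⟨C (symToRees I (SymmetricAlgebra.ι R I ⟨a, ha⟩)) + C (algebraMap R _ r) * X, ?_⟩
    have h1 : (⟨a + r * f, hx⟩ : (I ⊔ Ideal.span {f} : Ideal R)) =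
        aElt I f a ha + r • fElt I f := by
      apply Subtype.ext
      simp [aElt, fElt]
    rw [h1, map_add, map_smul, map_add]
    simp only [eval₂_add, eval₂_C, eval₂_mul, eval₂_X]
    congr 1
    · change _ = gam I f _
      rw [gam_symToRees, inclSym_ι]
    · change _ = gam I f (algebraMap R _ r) * _
      rw [AlgHom.commutes, yy]
      rw [← Algebra.smul_def]
      rfl
  | mul a b ha hb =>
    obtain ⟨P, hP⟩ := ha
    obtain ⟨Q, hQ⟩ := hb
    exact ⟨P * Q, by rw [map_mul, hP, hQ, eval₂_mul]⟩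
  | add a b ha hb =>
    obtain ⟨P, hP⟩ := ha
    obtain ⟨Q, hQ⟩ := hb
    exact ⟨P + Q, by rw [map_add, hP, hQ, eval₂_add]⟩

theorem gam_eq_sum (p : reesAlgebra I) (D : ℕ) (hD : (p : R[X]).natDegree < D) :
    gam I f p = ∑ m ∈ Finset.range D, Gm I f m ((p : R[X]).coeff m) := by
  have h1 : p = ∑ m ∈ Finset.range D, (⟨monomial m ((p : R[X]).coeff m),
      reesAlgebra.monomial_mem.mpr (p.2 m)⟩ : reesAlgebra I) := by
    apply Subtype.ext
    rw [AddSubmonoidClass.coe_finsetSum]
    exact (p : R[X]).as_sum_range' D hD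
  conv_lhs => rw [h1]
  rw [map_sum]
  apply Finset.sum_congr rfl
  intro m _
  rw [Gm_of_mem (p.2 m)]

theorem theta_injective (hf : ∀ (j : ℕ) (r : R), r * f ∈ I ^ j → r ∈ I ^ j)
    (g : GG I f) (hg : theta I f g = 0) : g = 0 := by
  obtain ⟨P, rfl⟩ := gg_eq_eval g
  -- bound
  obtain ⟨D, hD1, hD2⟩ : ∃ D : ℕ, P.natDegree < D ∧
      ∀ i, ((P.coeff i : reesAlgebra I) : R[X]).natDegree < D := by
    refine ⟨P.natDegree + 1 + ∑ i ∈ Finset.range (P.natDegree + 1),
      ((P.coeff i : reesAlgebra I) : R[X]).natDegree + 1, by omega, ?_⟩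
    intro i
    by_cases hi : i < P.natDegree + 1
    · have := Finset.single_le_sum
        (f := fun i => ((P.coeff i : reesAlgebra I) : R[X]).natDegree)
        (fun _ _ => Nat.zero_le _) (Finset.mem_range.mpr hi)
      omega
    · have : P.coeff i = 0 := coeff_eq_zero_of_natDegree_lt (by omega)
      rw [this]
      simp
  have hev : P.eval₂ (gam I f).toRingHom (yy I f) =
      ∑ i ∈ Finset.range D, gam I f (P.coeff i) * yy I f ^ i :=
    eval₂_eq_sum_range' _ hD1 _
  -- coefficient of `t^n`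
  have hcoef : ∀ n, ∑ i ∈ Finset.range (n + 1),
      ((P.coeff i : reesAlgebra I) : R[X]).coeff (n - i) * f ^ i = 0 := by
    intro n
    rw [hev, map_sum] at hg
    have h1 : ∀ i, theta I f (gam I f (P.coeff i) * yy I f ^ i) =
        ((P.coeff i : reesAlgebra I) : R[X]) * (C (f ^ i) * X ^ i) := by
      intro i
      rw [map_mul, map_pow, theta_gam, theta_yy]
      congr 1
      rw [monomial_pow, one_mul, C_mul_X_pow_eq_monomial]
    simp only [h1] at hg
    have h2 := congrArg (fun q : R[X] => q.coeff n) hg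
    simp only [finsetSum_coeff, coeff_zero] at h2
    have h3 : ∀ i, (((P.coeff i : reesAlgebra I) : R[X]) * (C (f ^ i) * X ^ i)).coeff n =
        if i ≤ n then ((P.coeff i : reesAlgebra I) : R[X]).coeff (n - i) * f ^ i else 0 := by
      intro i
      rw [← mul_assoc, coeff_mul_X_pow']
      split_ifs with h
      · rw [coeff_mul_C]
      · rfl
    simp only [h3] at h2
    -- extend/cut ranges
    rw [← Finset.sum_filter] at h2
    have hP0 : ∀ i, D ≤ i → P.coeff i = 0 := fun i hi =>
      coeff_eq_zero_of_natDegree_lt (by omega)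
    rw [← h2]
    symm
    apply Finset.sum_subset
    · intro i hi
      simp only [Finset.mem_filter, Finset.mem_range] at hi ⊢
      omega
    · intro i hi hni
      simp only [Finset.mem_filter, Finset.mem_range, not_and, not_le] at hi hni
      have : D ≤ i := by
        by_contra hcon
        have := hni (by omega)
        omega
      rw [hP0 i this]
      simp
  rw [hev]
  have hsum : ∀ n, ∑ i ∈ Finset.range (n + 1),
      Gm I f (n - i) (((P.coeff i : reesAlgebra I) : R[X]).coeff (n - i)) * yy I f ^ i = 0 :=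
    fun n => main_induction hf n (fun i => ((P.coeff i : reesAlgebra I) : R[X]).coeff (n - i))
      (fun i _ => (P.coeff i).2 (n - i)) (hcoef n)
  set h : ℕ → ℕ → GG I f := fun i m =>
    Gm I f m (((P.coeff i : reesAlgebra I) : R[X]).coeff m) * yy I f ^ i with hh
  have hvan1 : ∀ i m, D ≤ i → h i m = 0 := by
    intro i m hi
    have : P.coeff i = 0 := coeff_eq_zero_of_natDegree_lt (by omega)
    simp [hh, this, Gm_zero]
  have hvan2 : ∀ i m, D ≤ m → h i m = 0 := by
    intro i m hm
    have : ((P.coeff i : reesAlgebra I) : R[X]).coeff m = 0 :=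
      coeff_eq_zero_of_natDegree_lt (lt_of_lt_of_le (hD2 i) hm)
    simp [hh, this, Gm_zero]
  have hLHS : ∑ i ∈ Finset.range D, gam I f (P.coeff i) * yy I f ^ i =
      ∑ i ∈ Finset.range (2 * D), ∑ m ∈ Finset.range (2 * D - i), h i m := by
    have hstep : ∑ i ∈ Finset.range (2 * D), ∑ m ∈ Finset.range (2 * D - i), h i m =
        ∑ i ∈ Finset.range D, ∑ m ∈ Finset.range (2 * D - i), h i m := by
      symm
      apply Finset.sum_subset
      · intro i hi
        simp only [Finset.mem_range] at hi ⊢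
        omega
      · intro i _ hi
        simp only [Finset.mem_range, not_lt] at hi
        exact Finset.sum_eq_zero (fun m _ => hvan1 i m hi)
    rw [hstep]
    apply Finset.sum_congr rfl
    intro i hi
    rw [gam_eq_sum _ D (hD2 i), Finset.sum_mul]
    apply Finset.sum_subset
    · intro m hm
      simp only [Finset.mem_range] at hi hm ⊢
      omega
    · intro m _ hm
      simp only [Finset.mem_range, not_lt] at hm
      exact hvan2 i m hm
  rw [hLHS, ← Finset.sum_range_diag_flip]
  exact Finset.sum_eq_zero (fun n _ => hsum n)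

/-- If `f` is regular modulo all powers of `I`, then the kernel of `S((I,f)) → R((I,f))` is
generated by the kernel of `S(I) → R(I)`. -/
theorem ker_le_kerExt (hf : ∀ (j : ℕ) (r : R), r * f ∈ I ^ j → r ∈ I ^ j)
    (z : SymmetricAlgebra R (I ⊔ Ideal.span {f} : Ideal R)) (hz : symToRees _ z = 0) :
    z ∈ kerExt I f := by
  rw [← Ideal.Quotient.eq_zero_iff_mem]
  apply theta_injective hf
  rw [theta_mk, hz]
  rfl

end kernel

end Pool.Agent.Work.MP_72f8f6_ag
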