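import Mathlib

/-!
# The conductor of an ideal
-/

open Polynomial

namespace Pool.Agent.Work.MP_72f8f6_ag

universe u

variable {R : Type u} [CommRing R]

/-- The natural `R`-algebra homomorphism `α : S(I) → R(I)` from the symmetric algebra of the
ideal `I` to its Rees algebra `R(I) ⊆ R[t]`, sending `a ∈ I` (in degree one) to `a t`. -/
noncomputable def symToRees (I : Ideal R) : SymmetricAlgebra R I →ₐ[R] reesAlgebra I :=
  SymmetricAlgebra.lift
    (((Polynomial.monomial 1 : R →ₗ[R] R[X]).comp I.subtype).codRestrict
      (Subalgebra.toSubmodule (reesAlgebra I)) (fun a => by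
        exact reesAlgebra.monomial_mem.mpr (by simp)))

/-- The conductor `C(I) = Ann_R (ker (S(I) → R(I)))` of an ideal `I`. -/
noncomputable def conductor (I : Ideal R) : Ideal R :=
  Module.annihilator R (RingHom.ker (symToRees I))

end Pool.Agent.Work.MP_72f8f6_ag
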