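import Pool.Agent.Work.MP_72f8f6_ag.Defs

/-!
# Regularity of `a + c` modulo the powers of `(a,b)^2 (c,d)^2`
-/

namespace Pool.Agent.Work.MP_72f8f6_ag

open MvPolynomial

variable {k : Type*} [Field k]

/-- The ideal `(a, b)`. -/
noncomputable def AA (k : Type*) [Field k] : Ideal (MvPolynomial (Fin 4) k) :=
  Ideal.span {X 0, X 1}

/-- The ideal `(c, d)`. -/
noncomputable def BB (k : Type*) [Field k] : Ideal (MvPolynomial (Fin 4) k) :=
  Ideal.span {X 2, X 3}

/-- The monomial ideal of all polynomials whose monomials have degree at least `n` in `a, b` and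
degree at least `m` in `c, d`. -/
def JJ (k : Type*) [Field k] (n m : ℕ) : Ideal (MvPolynomial (Fin 4) k) where
  carrier := {p | ∀ v ∈ p.support, n ≤ v 0 + v 1 ∧ m ≤ v 2 + v 3}
  add_mem' {p q} hp hq := by
    classical
    intro v hv
    have := MvPolynomial.support_add hv
    rcases Finset.mem_union.mp this with h | h
    · exact hp v h
    · exact hq v h
  zero_mem' := by
    intro v hv
    simp at hv
  smul_mem' := by
    classical
    intro c p hp v hv
    rw [smul_eq_mul] at hv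
    have := MvPolynomial.support_mul c p hv
    obtain ⟨v1, _, v2, h2, rfl⟩ := Finset.mem_add.mp this
    have := hp v2 h2
    simp only [Finsupp.add_apply]
    omega

theorem mem_JJ {n m : ℕ} {p : MvPolynomial (Fin 4) k} :
    p ∈ JJ k n m ↔ ∀ v ∈ p.support, n ≤ v 0 + v 1 ∧ m ≤ v 2 + v 3 := Iff.rfl

theorem JJ_mul (n m n' m' : ℕ) : JJ k n m * JJ k n' m' ≤ JJ k (n + n') (m + m') := by
  classical
  rw [Ideal.mul_le]
  intro p hp q hq v hv
  have := MvPolynomial.support_mul p q hv
  obtain ⟨v1, h1, v2, h2, rfl⟩ := Finset.mem_add.mp this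
  have h1' := hp v1 h1
  have h2' := hq v2 h2
  simp only [Finsupp.add_apply]
  omega

theorem AA_le : AA k ≤ JJ k 1 0 := by
  classical
  rw [AA, Ideal.span_le]
  rintro p (rfl | rfl)
  · intro v hv
    rw [support_X, Finset.mem_singleton] at hv
    subst hv
    simp
  · intro v hv
    rw [support_X, Finset.mem_singleton] at hv
    subst hv
    simp

theorem BB_le : BB k ≤ JJ k 0 1 := by
  classical
  rw [BB, Ideal.span_le]
  rintro p (rfl | rfl)
  · intro v hv
    rw [support_X, Finset.mem_singleton] at hv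
    subst hv
    simp
  · intro v hv
    rw [support_X, Finset.mem_singleton] at hv
    subst hv
    simp

theorem JJ_zero : JJ k 0 0 = ⊤ := by
  rw [eq_top_iff]
  intro p _ v _
  omega

theorem AA_pow_le (n : ℕ) : AA k ^ n ≤ JJ k n 0 := by
  induction n with
  | zero => rw [JJ_zero]; exact le_top
  | succ n ih =>
    rw [pow_succ]
    exact (Ideal.mul_mono ih AA_le).trans (JJ_mul n 0 1 0)

theorem BB_pow_le (n : ℕ) : BB k ^ n ≤ JJ k 0 n := by
  induction n with
  | zero => rw [JJ_zero]; exact le_top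
  | succ n ih =>
    rw [pow_succ]
    exact (Ideal.mul_mono ih BB_le).trans (JJ_mul 0 n 0 1)

theorem monomial_eq_prod (v : Fin 4 →₀ ℕ) (c : k) :
    (monomial v c : MvPolynomial (Fin 4) k) =
      C c * ((X 0 ^ v 0 * X 1 ^ v 1) * (X 2 ^ v 2 * X 3 ^ v 3)) := by
  rw [monomial_eq, Finsupp.prod_fintype _ _ (by simp)]
  simp only [Fin.prod_univ_four]
  ring

theorem prod_mem_AA (n i j : ℕ) (h : n ≤ i + j) :
    (X 0 ^ i * X 1 ^ j : MvPolynomial (Fin 4) k) ∈ AA k ^ n := by
  apply Ideal.pow_le_pow_right h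
  rw [pow_add]
  exact Ideal.mul_mem_mul (Ideal.pow_mem_pow (Ideal.subset_span (by simp)) _)
    (Ideal.pow_mem_pow (Ideal.subset_span (by simp)) _)

theorem prod_mem_BB (n i j : ℕ) (h : n ≤ i + j) :
    (X 2 ^ i * X 3 ^ j : MvPolynomial (Fin 4) k) ∈ BB k ^ n := by
  apply Ideal.pow_le_pow_right h
  rw [pow_add]
  exact Ideal.mul_mem_mul (Ideal.pow_mem_pow (Ideal.subset_span (by simp)) _)
    (Ideal.pow_mem_pow (Ideal.subset_span (by simp)) _)

theorem pow_mul_pow_eq (n m : ℕ) : AA k ^ n * BB k ^ m = JJ k n m := by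
  apply le_antisymm
  · exact (Ideal.mul_mono (AA_pow_le n) (BB_pow_le m)).trans (by simpa using JJ_mul (k := k) n 0 0 m)
  · intro p hp
    rw [p.as_sum]
    refine Ideal.sum_mem _ (fun v hv => ?_)
    have := hp v hv
    rw [monomial_eq_prod]
    exact Ideal.mul_mem_left _ _ (Ideal.mul_mem_mul (prod_mem_AA _ _ _ this.1)
      (prod_mem_BB _ _ _ this.2))

/-- The ideal `I = (a,b)^2 (c,d)^2`. -/
noncomputable def JI (k : Type*) [Field k] : Ideal (MvPolynomial (Fin 4) k) := AA k ^ 2 * BB k ^ 2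

theorem JI_pow (j : ℕ) : JI k ^ j = JJ k (2 * j) (2 * j) := by
  rw [JI, mul_pow, ← pow_mul, ← pow_mul, pow_mul_pow_eq]

/-- The weight homomorphism `X i ↦ X i T ^ (w i)`. -/
noncomputable def tau (k : Type*) [Field k] (w : Fin 4 → ℕ) :
    MvPolynomial (Fin 4) k →ₐ[k] Polynomial (MvPolynomial (Fin 4) k) :=
  aeval (fun i => Polynomial.monomial (w i) (X i))

theorem tau_monomial (w : Fin 4 → ℕ) (v : Fin 4 →₀ ℕ) (c : k) :
    tau k w (monomial v c) = Polynomial.monomial (∑ i, w i * v i) (monomial v c) := by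
  rw [tau, aeval_monomial, Finsupp.prod_fintype _ _ (by simp)]
  simp only [Polynomial.monomial_pow, Fin.prod_univ_four, Polynomial.monomial_mul_monomial,
    Fin.sum_univ_four]
  rw [monomial_eq_prod, Polynomial.algebraMap_apply, Polynomial.C_mul_monomial]
  have h1 : v 0 * w 0 + v 1 * w 1 + v 2 * w 2 + v 3 * w 3 =
      w 0 * v 0 + w 1 * v 1 + w 2 * v 2 + w 3 * v 3 := by ring
  have h2 : (algebraMap k (MvPolynomial (Fin 4) k)) c *
      (X 0 ^ v 0 * X 1 ^ v 1 * X 2 ^ v 2 * X 3 ^ v 3) =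
      C c * ((X 0 ^ v 0 * X 1 ^ v 1) * (X 2 ^ v 2 * X 3 ^ v 3)) := by
    rw [algebraMap_eq]; ring
  first
    | rw [h2, h1]
    | rw [h2]

theorem coeff_tau (w : Fin 4 → ℕ) (p : MvPolynomial (Fin 4) k) (n : ℕ) (v : Fin 4 →₀ ℕ) :
    coeff v ((tau k w p).coeff n) = if ∑ i, w i * v i = n then coeff v p else 0 := by
  classical
  induction p using MvPolynomial.induction_on' with
  | monomial u c =>
    rw [tau_monomial, Polynomial.coeff_monomial, coeff_monomial]
    by_cases huv : u = v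
    · subst huv
      rw [if_pos rfl]
      split_ifs with h1
      · rw [coeff_monomial, if_pos rfl]
      · simp
    · rw [if_neg huv]
      split_ifs
      · rw [coeff_monomial, if_neg huv]
      · rw [coeff_monomial, if_neg huv]
      · rfl
      · rfl
  | add p q hp hq =>
    rw [map_add, Polynomial.coeff_add, coeff_add, hp, hq, coeff_add]
    split_ifs <;> simp

theorem X_pow_dvd_tau (w : Fin 4 → ℕ) (p : MvPolynomial (Fin 4) k) (n : ℕ) :
    (Polynomial.X ^ n : Polynomial (MvPolynomial (Fin 4) k)) ∣ tau k w p ↔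
      ∀ v ∈ p.support, n ≤ ∑ i, w i * v i := by
  rw [Polynomial.X_pow_dvd_iff]
  constructor
  · intro h v hv
    by_contra hcon
    push Not at hcon
    have h1 := h _ hcon
    have h2 := coeff_tau w p (∑ i, w i * v i) v
    rw [h1, if_pos rfl, coeff_zero] at h2
    exact (mem_support_iff.mp hv) h2.symm
  · intro h d hd
    ext v
    rw [coeff_tau, coeff_zero]
    split_ifs with h1
    · by_contra h2
      have := h v (mem_support_iff.mpr h2)
      omega
    · rfl

theorem weight_reg (w : Fin 4 → ℕ) (f : MvPolynomial (Fin 4) k)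
    (hf : ∃ v ∈ f.support, ∑ i, w i * v i = 0) (r : MvPolynomial (Fin 4) k) (n : ℕ)
    (h : ∀ v ∈ (r * f).support, n ≤ ∑ i, w i * v i) : ∀ v ∈ r.support, n ≤ ∑ i, w i * v i := by
  rw [← X_pow_dvd_tau] at h ⊢
  rw [map_mul] at h
  refine Prime.pow_dvd_of_dvd_mul_right Polynomial.prime_X n ?_ h
  intro h1
  rw [← pow_one (Polynomial.X : Polynomial (MvPolynomial (Fin 4) k)), X_pow_dvd_tau] at h1
  obtain ⟨v, hv, hv0⟩ := hf
  have := h1 v hv
  omega

/-- `a + c`. -/
noncomputable def fac (k : Type*) [Field k] : MvPolynomial (Fin 4) k := X 0 + X 2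

theorem single_mem_support_fac0 : (Finsupp.single 0 1 : Fin 4 →₀ ℕ) ∈ (fac k).support := by
  classical
  rw [mem_support_iff, fac, coeff_add, coeff_X, coeff_X]
  have : ¬ (Finsupp.single (2 : Fin 4) 1 = (Finsupp.single 0 1 : Fin 4 →₀ ℕ)) := by
    intro h
    have := DFunLike.congr_fun h 0
    simp at this
  simp [this]

theorem single_mem_support_fac2 : (Finsupp.single 2 1 : Fin 4 →₀ ℕ) ∈ (fac k).support := by
  classical
  rw [mem_support_iff, fac, coeff_add, coeff_X, coeff_X]
  have : ¬ (Finsupp.single (0 : Fin 4) 1 = (Finsupp.single 2 1 : Fin 4 →₀ ℕ)) := by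
    intro h
    have := DFunLike.congr_fun h 0
    simp at this
  simp [this]

theorem fac_reg (j : ℕ) (r : MvPolynomial (Fin 4) k) (h : r * fac k ∈ JI k ^ j) :
    r ∈ JI k ^ j := by
  rw [JI_pow, mem_JJ] at h ⊢
  have h1 := weight_reg (![1, 1, 0, 0]) (fac k)
    ⟨_, single_mem_support_fac2, by simp [Fin.sum_univ_four]⟩ r (2 * j)
    (fun v hv => by simpa [Fin.sum_univ_four] using (h v hv).1)
  have h2 := weight_reg (![0, 0, 1, 1]) (fac k)
    ⟨_, single_mem_support_fac0, by simp [Fin.sum_univ_four]⟩ r (2 * j)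
    (fun v hv => by simpa [Fin.sum_univ_four] using (h v hv).2)
  intro v hv
  exact ⟨by simpa [Fin.sum_univ_four] using h1 v hv, by simpa [Fin.sum_univ_four] using h2 v hv⟩

end Pool.Agent.Work.MP_72f8f6_ag
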