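import Pool.Agent.Work.MP_72f8f6_ag.Basic
import Pool.Agent.Work.MP_72f8f6_ag.PolyReg

/-!
# `a` is not in `C(I) + (a + c)` for `I = (a,b)^2 (c,d)^2`
-/

namespace Pool.Agent.Work.MP_72f8f6_ag

open MvPolynomial

universe u v

theorem conductor_kills {R : Type u} [CommRing R] (I : Ideal R) {A : Type v} [CommRing A]
    [IsDomain A] [Algebra R A] (φ : I →ₗ[R] A) (x1 x2 y1 y2 : I)
    (h : (x1 : R) * x2 = y1 * y2) (hne : φ x1 * φ x2 - φ y1 * φ y2 ≠ 0) (r : R)
    (hr : r ∈ conductor I) : algebraMap R A r = 0 := by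
  rw [mem_conductor] at hr
  have h1 : symToRees I (SymmetricAlgebra.ι R I x1 * SymmetricAlgebra.ι R I x2 -
      SymmetricAlgebra.ι R I y1 * SymmetricAlgebra.ι R I y2) = 0 := by
    apply Subtype.ext
    rw [map_sub, map_mul, map_mul]
    change ((symToRees I (SymmetricAlgebra.ι R I x1) : Polynomial R)) *
      ((symToRees I (SymmetricAlgebra.ι R I x2) : Polynomial R)) -
      ((symToRees I (SymmetricAlgebra.ι R I y1) : Polynomial R)) *
      ((symToRees I (SymmetricAlgebra.ι R I y2) : Polynomial R)) = 0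
    simp only [symToRees_ι, Polynomial.monomial_mul_monomial, h, sub_self]
  have h2 := hr _ h1
  have h3 := congrArg (SymmetricAlgebra.lift φ) h2
  rw [map_smul, map_sub, map_mul, map_mul] at h3
  simp only [SymmetricAlgebra.lift_ι_apply, map_zero, Algebra.smul_def] at h3
  rcases mul_eq_zero.mp h3 with h4 | h4
  · exact h4
  · exact absurd h4 hne

variable {k : Type*} [Field k]

/-- The monomial `a^(2-i) b^i c^(2-j) d^j`. -/
noncomputable def gm (k : Type*) [Field k] (i j : ℕ) : MvPolynomial (Fin 4) k :=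
  (X 0 ^ (2 - i) * X 1 ^ i) * (X 2 ^ (2 - j) * X 3 ^ j)

theorem gm_mem (i j : ℕ) : gm k i j ∈ JI k :=
  Ideal.mul_mem_mul (prod_mem_AA _ _ _ (by omega)) (prod_mem_BB _ _ _ (by omega))

/-- `k[a,b,c,d] → k[c,d]`, killing `a, b`. -/
noncomputable def eAB (k : Type*) [Field k] : MvPolynomial (Fin 4) k →+* MvPolynomial (Fin 2) k :=
  (aeval ![0, 0, X 0, X 1] : MvPolynomial (Fin 4) k →ₐ[k] MvPolynomial (Fin 2) k).toRingHom

/-- `k[a,b,c,d] → k[a,b]`, killing `c, d`. -/
noncomputable def eCD (k : Type*) [Field k] : MvPolynomial (Fin 4) k →+* MvPolynomial (Fin 2) k :=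
  (aeval ![X 0, X 1, 0, 0] : MvPolynomial (Fin 4) k →ₐ[k] MvPolynomial (Fin 2) k).toRingHom

theorem eAB_X0 : eAB k (X 0) = 0 := by simp [eAB]
theorem eAB_X1 : eAB k (X 1) = 0 := by simp [eAB]
theorem eAB_X2 : eAB k (X 2) = X 0 := by simp [eAB]
theorem eAB_X3 : eAB k (X 3) = X 1 := by simp [eAB]
theorem eCD_X0 : eCD k (X 0) = X 0 := by simp [eCD]
theorem eCD_X1 : eCD k (X 1) = X 1 := by simp [eCD]
theorem eCD_X2 : eCD k (X 2) = 0 := by simp [eCD]
theorem eCD_X3 : eCD k (X 3) = 0 := by simp [eCD]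

theorem sq_vanish (e : MvPolynomial (Fin 4) k →+* MvPolynomial (Fin 2) k)
    (Q : Ideal (MvPolynomial (Fin 4) k)) (hQ : ∀ x ∈ Q, e x = 0) (i : Fin 4)
    (x : MvPolynomial (Fin 4) k) (hx : x ∈ Q ^ 2) : e x = 0 ∧ e (pderiv i x) = 0 := by
  rw [pow_two] at hx
  refine Submodule.mul_induction_on hx ?_ ?_
  · intro y hy z hz
    rw [Derivation.leibniz, smul_eq_mul, smul_eq_mul]
    simp [hQ y hy, hQ z hz]
  · rintro y z ⟨h1, h2⟩ ⟨h3, h4⟩
    simp [h1, h2, h3, h4]

theorem eAB_AA (x : MvPolynomial (Fin 4) k) (hx : x ∈ AA k) : eAB k x = 0 := by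
  have : AA k ≤ RingHom.ker (eAB k) := by
    rw [AA, Ideal.span_le]
    rintro p (rfl | rfl)
    · exact eAB_X0
    · exact eAB_X1
  exact this hx

theorem eCD_BB (x : MvPolynomial (Fin 4) k) (hx : x ∈ BB k) : eCD k x = 0 := by
  have : BB k ≤ RingHom.ker (eCD k) := by
    rw [BB, Ideal.span_le]
    rintro p (rfl | rfl)
    · exact eCD_X2
    · exact eCD_X3
  exact this hx

/-- The second derivative as a linear map on an ideal. -/
theorem second_deriv_smul (e : MvPolynomial (Fin 4) k →+* MvPolynomial (Fin 2) k)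
    (i j : Fin 4) (r x : MvPolynomial (Fin 4) k) (h0 : e x = 0) (h1 : e (pderiv i x) = 0)
    (h2 : e (pderiv j x) = 0) :
    e (pderiv i (pderiv j (r * x))) = e r * e (pderiv i (pderiv j x)) := by
  rw [Derivation.leibniz, map_add]
  simp only [smul_eq_mul, Derivation.leibniz, map_add, map_mul, h0, h1, h2]
  ring

theorem eAB_conductor (r : MvPolynomial (Fin 4) k) (hr : r ∈ conductor (JI k)) :
    eAB k r = 0 := by
  let _ : Algebra (MvPolynomial (Fin 4) k) (MvPolynomial (Fin 2) k) := (eAB k).toAlgebra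
  have hal : ∀ (r : MvPolynomial (Fin 4) k) (x : MvPolynomial (Fin 2) k), r • x = eAB k r * x :=
    fun r x => rfl
  have hle : JI k ≤ AA k ^ 2 := Ideal.mul_le_left
  let φ : JI k →ₗ[MvPolynomial (Fin 4) k] MvPolynomial (Fin 2) k :=
    { toFun := fun x => eAB k (pderiv 0 (pderiv 1 (x : MvPolynomial (Fin 4) k)))
      map_add' := fun a b => by simp
      map_smul' := fun r x => by
        have h0 := sq_vanish (eAB k) (AA k) eAB_AA 0 x (hle x.2)
        have h1 := sq_vanish (eAB k) (AA k) eAB_AA 1 x (hle x.2)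
        rw [RingHom.id_apply, hal, SetLike.val_smul, smul_eq_mul]
        exact second_deriv_smul (eAB k) 0 1 r x h0.1 h0.2 h1.2 }
  refine conductor_kills (JI k) φ ⟨gm k 0 0, gm_mem 0 0⟩ ⟨gm k 2 0, gm_mem 2 0⟩
    ⟨gm k 1 0, gm_mem 1 0⟩ ⟨gm k 1 0, gm_mem 1 0⟩ ?_ ?_ r hr
  · simp only [gm]
    ring
  · have e1 : φ ⟨gm k 0 0, gm_mem 0 0⟩ = 0 := by
      simp only [φ, gm, LinearMap.coe_mk, AddHom.coe_mk]
      simp [pderiv_X, eAB_X0, eAB_X1, eAB_X2, eAB_X3]
    have e3 : φ ⟨gm k 1 0, gm_mem 1 0⟩ = X 0 ^ 2 := by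
      simp only [φ, gm, LinearMap.coe_mk, AddHom.coe_mk]
      simp [pderiv_X, eAB_X0, eAB_X1, eAB_X2, eAB_X3]
    rw [e1, e3, zero_mul, zero_sub, neg_ne_zero]
    exact mul_ne_zero (pow_ne_zero _ (X_ne_zero _)) (pow_ne_zero _ (X_ne_zero _))

theorem eCD_conductor (r : MvPolynomial (Fin 4) k) (hr : r ∈ conductor (JI k)) :
    eCD k r = 0 := by
  let _ : Algebra (MvPolynomial (Fin 4) k) (MvPolynomial (Fin 2) k) := (eCD k).toAlgebra
  have hal : ∀ (r : MvPolynomial (Fin 4) k) (x : MvPolynomial (Fin 2) k), r • x = eCD k r * x :=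
    fun r x => rfl
  have hle : JI k ≤ BB k ^ 2 := Ideal.mul_le_right
  let φ : JI k →ₗ[MvPolynomial (Fin 4) k] MvPolynomial (Fin 2) k :=
    { toFun := fun x => eCD k (pderiv 2 (pderiv 3 (x : MvPolynomial (Fin 4) k)))
      map_add' := fun a b => by simp
      map_smul' := fun r x => by
        have h0 := sq_vanish (eCD k) (BB k) eCD_BB 2 x (hle x.2)
        have h1 := sq_vanish (eCD k) (BB k) eCD_BB 3 x (hle x.2)
        rw [RingHom.id_apply, hal, SetLike.val_smul, smul_eq_mul]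
        exact second_deriv_smul (eCD k) 2 3 r x h0.1 h0.2 h1.2 }
  refine conductor_kills (JI k) φ ⟨gm k 0 0, gm_mem 0 0⟩ ⟨gm k 0 2, gm_mem 0 2⟩
    ⟨gm k 0 1, gm_mem 0 1⟩ ⟨gm k 0 1, gm_mem 0 1⟩ ?_ ?_ r hr
  · simp only [gm]
    ring
  · have e1 : φ ⟨gm k 0 0, gm_mem 0 0⟩ = 0 := by
      simp only [φ, gm, LinearMap.coe_mk, AddHom.coe_mk]
      simp [pderiv_X, eCD_X0, eCD_X1, eCD_X2, eCD_X3]
    have e3 : φ ⟨gm k 0 1, gm_mem 0 1⟩ = X 0 ^ 2 := by
      simp only [φ, gm, LinearMap.coe_mk, AddHom.coe_mk]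
      simp [pderiv_X, eCD_X0, eCD_X1, eCD_X2, eCD_X3]
    rw [e1, e3, zero_mul, zero_sub, neg_ne_zero]
    exact mul_ne_zero (pow_ne_zero _ (X_ne_zero _)) (pow_ne_zero _ (X_ne_zero _))

theorem X0_not_mem : (X 0 : MvPolynomial (Fin 4) k) ∉ conductor (JI k) ⊔ Ideal.span {fac k} := by
  intro h
  obtain ⟨r, hr, b, hb, h1⟩ := Submodule.mem_sup.mp h
  obtain ⟨s, rfl⟩ := Ideal.mem_span_singleton'.mp hb
  have h2 := congrArg (eAB k) h1
  have h3 := congrArg (eCD k) h1
  rw [map_add, eAB_conductor r hr, map_mul, fac, map_add, eAB_X0, eAB_X2] at h2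
  rw [map_add, eCD_conductor r hr, map_mul, fac, map_add, eCD_X0, eCD_X2] at h3
  rw [zero_add, zero_add] at h2
  rw [zero_add, add_zero] at h3
  have h4 : eAB k s = 0 := by
    rcases mul_eq_zero.mp h2 with h | h
    · exact h
    · exact absurd h (X_ne_zero _)
  have h5 : eCD k s = 1 := by
    have : (eCD k s - 1) * X 0 = 0 := by
      rw [sub_mul, h3]; ring
    rcases mul_eq_zero.mp this with h | h
    · exact sub_eq_zero.mp h
    · exact absurd h (X_ne_zero _)
  -- constant coefficients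
  have h6 : (constantCoeff : MvPolynomial (Fin 2) k →+* k).comp (eAB k) = constantCoeff := by
    apply MvPolynomial.ringHom_ext
    · intro r
      simp [eAB]
    · intro i
      fin_cases i <;> simp [eAB]
  have h7 : (constantCoeff : MvPolynomial (Fin 2) k →+* k).comp (eCD k) = constantCoeff := by
    apply MvPolynomial.ringHom_ext
    · intro r
      simp [eCD]
    · intro i
      fin_cases i <;> simp [eCD]
  have h8 := RingHom.congr_fun h6 s
  have h9 := RingHom.congr_fun h7 s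
  rw [RingHom.comp_apply, h4, map_zero] at h8
  rw [RingHom.comp_apply, h5, map_one] at h9
  rw [← h9] at h8
  exact zero_ne_one h8

end Pool.Agent.Work.MP_72f8f6_ag
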